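import Pool.Agent.U180.SN.Defs
import Pool.Agent.U180.SN.Fin

/-!
# The star discrepancy of points which are placed at random in given small cubes

Let `m` cubes of side `1/n` be given in `[0,1]^d`, `d ≥ 3`, and let one point be chosen uniformly and
independently in each of them.

* For every choice of the cubes the star discrepancy exceeds `c √(log n / (n m))`, except with
  probability `exp (-√n)`.
* For every point set `p`, if the cubes are those of the grid of mesh `1/n` which contain the points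
  `p_i`, it is at most `C (D(p)_∞ + √(log m / (n m)))`, except with probability `1/m`.
* Hence the optimal median has the order `D(m,d)_∞ + √(log m / (n m))` for `n ≥ m^ε`: explicit for
  the larger cubes, and the order of `D(m,d)_∞` for the smaller ones.
-/

set_option autoImplicit false

namespace Pool.Agent.Results.MP_173de9_an.NoisyPointSets

open MeasureTheory Pool.Agent.U180.SN

/-- The star discrepancy of random points in given cubes of side `1/n`. -/
theorem result (d : ℕ) (hd : 3 ≤ d) :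
    -- every choice of the cubes
    (∃ c : ℝ, 0 < c ∧ ∃ n₀ : ℕ, ∀ m n : ℕ, n₀ ≤ n → n * Real.log n ≤ c * m →
      ∀ a : Fin m → Fin d → ℝ, CubesInside n a →
        probAtMost n a (ENNReal.ofReal (c * Real.sqrt (Real.log n / (n * m))))
          ≤ ENNReal.ofReal (Real.exp (-Real.sqrt n))) ∧
    -- the grid cubes around the points of an arbitrary point set
    (∃ C : ℝ, 0 < C ∧ ∀ m n : ℕ, 3 ≤ m → 1 ≤ n →
      ∀ p : Fin m → Fin d → ℝ, (∀ i, p i ∈ Set.Icc (0 : Fin d → ℝ) 1) →
        CubesInside n (gridCorner n p) ∧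
        probAbove n (gridCorner n p) (ENNReal.ofReal C * (starDisc ⊤ p
          + ENNReal.ofReal (Real.sqrt (Real.log m / (n * m))))) ≤ ENNReal.ofReal (1 / m)) ∧
    -- the order of the optimal median
    (∀ ε : ℝ, 0 < ε → ∃ c C : ℝ, 0 < c ∧ 0 < C ∧ ∀ m n : ℕ, 3 ≤ m → (m:ℝ) ^ ε ≤ n →
      ENNReal.ofReal c * (optDisc ⊤ m d + ENNReal.ofReal (Real.sqrt (Real.log m / (n * m))))
        ≤ noisyOpt n m d ∧
      noisyOpt n m d
        ≤ ENNReal.ofReal C * (optDisc ⊤ m d + ENNReal.ofReal (Real.sqrt (Real.log m / (n * m))))) ∧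
    -- larger cubes: explicit
    (∀ ε : ℝ, 0 < ε → ∃ c C : ℝ, 0 < c ∧ 0 < C ∧ ∀ m n : ℕ, 3 ≤ m → (m:ℝ) ^ ε ≤ n →
      n * ((Real.log m) ^ (2 * (d:ℝ) - 3 - 1 / 4) * (Real.log (Real.log m)) ^ 4) ≤ m →
      ENNReal.ofReal (c * Real.sqrt (Real.log m / (n * m))) ≤ noisyOpt n m d ∧
      noisyOpt n m d ≤ ENNReal.ofReal (C * Real.sqrt (Real.log m / (n * m)))) ∧
    -- smaller cubes: the order of the deterministic optimum
    (∃ C : ℝ, 0 < C ∧ ∀ m n : ℕ, 3 ≤ m → 1 ≤ n →
      m * Real.log (Real.log m) ≤ n * (Real.log m) ^ ((d:ℝ) - 2 + 1 / d) →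
      optDisc ⊤ m d ≤ noisyOpt n m d ∧ noisyOpt n m d ≤ ENNReal.ofReal C * optDisc ⊤ m d) := by
  refine ⟨?_, ?_, fun ε hε => noisy_order hd ε hε, fun ε hε => noisy_explicit hd ε hε, noisy_small hd⟩
  · obtain ⟨c, hc, -, n₀, -, H⟩ := every_choice (d := d) (by omega)
    exact ⟨c, hc, n₀, H⟩
  · obtain ⟨C, hC, H⟩ := some_choice_three hd
    exact ⟨C, by linarith, fun m n hm hn p hp => ⟨gridCorner_inside hn p, H m n hm hn p hp⟩⟩

end Pool.Agent.Results.MP_173de9_an.NoisyPointSets
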