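import Pool.Agent.U469.LP.UP
import Pool.Agent.N261.LP.PA
import Pool.Agent.N261.LP.PB
import Pool.Agent.N261.LP.PC
import Pool.Agent.N261.LP.PC4
import Pool.Agent.N261.LP.PD
import Pool.Agent.N261.LP.PM
import Pool.Agent.N261.LP.PM3
import Pool.Agent.N261.LP.PM4
import Pool.Agent.N261.LP.PM5
import Pool.Agent.N261.LP.PW
import Pool.Agent.N261.LP.PX
import Pool.Agent.Results.MP_173de9_an.LargeExponents

/-!
# The order of the optimal `L_p` star discrepancy for `p ≤ (ln m)^(1/d) / ln ln m`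

The page asks for the order of `D(m,d)_∞`.  The `L_p` star discrepancy interpolates between the
known case of a fixed exponent `p`, where the order is `(ln m)^((d-1)/2) / m`, and the case `p = ∞`.
Here the order is determined, with constants depending only on `d`, uniformly in all the exponents
`1 ≤ p ≤ (ln m)^(1/d) / ln ln m`, which is the whole range in which the lower bound of the earlier
result `LargeExponents` grows: it is `√p (ln m)^((d-1)/2) / m`.  The upper bound is proved for all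
the exponents `p ≤ (ln m)^κ`, `κ < min (1/(d-1), (d-1)/(2d-1))`.

As in the earlier result `SharpGrowingExponents` (which had `κ < 1/(2d+1)`) the points are digital
nets with randomly reversed digits.  New are: the splitting of the local discrepancy in the levels
near the level `n` of the net, the levels between `n + C ln n` and `n + p ln n` and the higher ones;
a bound of the moments of a Euclidean norm of a Rademacher sum by its strong and its weak variance,
which is applied to one coordinate after the other, the weak variances (random operator norms) being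
bounded by counting closed walks; and an inequality of Rosenthal's type for the middle levels.
-/

set_option autoImplicit false

namespace Pool.Agent.Results.MP_173de9_an.SharpWholeLowerRange

open MeasureTheory

/-- The local discrepancy `∏ x_j - Σ_μ λ_μ χ_{[0,x]}(ξ^μ)` of the points `ξ` with the weights `λ`. -/
noncomputable def localDisc {m d : ℕ} (lam : Fin m → ℝ) (ξ : Fin m → Fin d → ℝ) (x : Fin d → ℝ) : ℝ :=
  ∏ j, x j - ∑ μ : Fin m, lam μ * (Set.Icc (0 : Fin d → ℝ) x).indicator (fun _ => (1:ℝ)) (ξ μ)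

/-- The `L_p` norm of the weighted local discrepancy over `[0,1]^d`. -/
noncomputable def starDisc (p : ENNReal) {m d : ℕ} (lam : Fin m → ℝ) (ξ : Fin m → Fin d → ℝ) :
    ENNReal :=
  eLpNorm (localDisc lam ξ) p (volume.restrict (Set.Icc (0 : Fin d → ℝ) 1))

/-- `D(m,d)_p`: the infimum over all `m`-point sets (repetitions allowed) in `[0,1]^d`, all weights
equal to `1 / m`. -/
noncomputable def optDisc (p : ENNReal) (m d : ℕ) : ENNReal :=
  ⨅ (ξ : Fin m → Fin d → ℝ) (_ : ∀ μ, ξ μ ∈ Set.Icc (0 : Fin d → ℝ) 1),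
    starDisc p (fun _ => 1 / (m:ℝ)) ξ

/-- The infimum over all `m`-point sets in `[0,1]^d` and all real weights. -/
noncomputable def optWeighted (p : ENNReal) (m d : ℕ) : ENNReal :=
  ⨅ (lam : Fin m → ℝ) (ξ : Fin m → Fin d → ℝ) (_ : ∀ μ, ξ μ ∈ Set.Icc (0 : Fin d → ℝ) 1),
    starDisc p lam ξ

theorem localDisc_eq {m d : ℕ} (ξ : Fin m → Fin d → ℝ) :
    localDisc (fun _ => 1 / (m : ℝ)) ξ = H730R2.LU.ld ξ := by
  funext x
  unfold localDisc H730R2.LU.ld
  rw [← Finset.mul_sum]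

/-- the upper bound -/
theorem up (k : ℕ) (hk : 1 ≤ k) (κ : ℝ) (hκ0 : 0 < κ) (hκ1 : κ * (k : ℝ) < 1)
    (hκ2 : κ * (2 * (k : ℝ) + 1) < k) :
    ∃ C : ℝ, 0 < C ∧ ∀ m : ℕ, 2 ≤ m → ∃ ξ : Fin m → Fin (k + 1) → ℝ,
      (∀ μ, ξ μ ∈ Set.Icc (0 : Fin (k + 1) → ℝ) 1) ∧
      ∀ p : ℝ, 1 ≤ p → p ≤ (Real.log m) ^ κ →
        starDisc (ENNReal.ofReal p) (fun _ => 1 / (m : ℝ)) ξ ≤
          ENNReal.ofReal (C * Real.sqrt p * (Real.log m) ^ ((k : ℝ) / 2) / m) := by
  have hC1 := N261.LP.t_C1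
  have hC2 := N261.LP.t_C2
  obtain ⟨C, hC, hU⟩ := U469.LP.upper2 (N261.LP.t_B N261.LP.t_A) hC1 hC2 (N261.LP.t_C4 hC1 hC2)
    N261.LP.t_M1 N261.LP.t_M2 N261.LP.t_M3 (N261.LP.t_M5 N261.LP.t_M4) N261.LP.t_W
    (N261.LP.t_D hC2) N261.LP.t_X N261.LP.t_P k hk κ hκ0 hκ1 hκ2
  refine ⟨C, hC, fun m hm => ?_⟩
  obtain ⟨ξ, hξ, hξp⟩ := hU m hm
  refine ⟨ξ, hξ, fun p hp1 hp2 => ?_⟩
  unfold starDisc
  rw [localDisc_eq]
  exact hξp p hp1 hp2

/-- Let `d ≥ 3`.  (1) There are constants `c, C > 0` depending only on `d` such that for every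
`m ≥ 3` and every real exponent `1 ≤ p ≤ (ln m)^(1/d) / ln ln m`
`c √p (ln m)^((d-1)/2) / m ≤ D_w(m,d)_p ≤ D(m,d)_p ≤ C √p (ln m)^((d-1)/2) / m`,
where `D(m,d)_p` is the optimal `L_p` star discrepancy of `m` points and `D_w(m,d)_p` the one with
arbitrary real weights; moreover one set of `m` points attains the upper bound for all these `p`
simultaneously.  (2) For every `0 < κ < min (1/(d-1), (d-1)/(2d-1))` there is `C > 0` such that for
every `m ≥ 2` there is one set of `m` points whose `L_p` star discrepancies are at most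
`C √p (ln m)^((d-1)/2) / m` for all real `1 ≤ p ≤ (ln m)^κ` simultaneously. -/
theorem result (d : ℕ) (hd : 3 ≤ d) :
    (∃ c C : ℝ, 0 < c ∧ 0 < C ∧ ∀ m : ℕ, 3 ≤ m →
      (∀ p : ℝ, 1 ≤ p → p ≤ (Real.log m) ^ (1 / (d : ℝ)) / Real.log (Real.log m) →
        ENNReal.ofReal (c * Real.sqrt p * (Real.log m) ^ (((d : ℝ) - 1) / 2) / m) ≤
          optWeighted (ENNReal.ofReal p) m d ∧
        optWeighted (ENNReal.ofReal p) m d ≤ optDisc (ENNReal.ofReal p) m d ∧
        optDisc (ENNReal.ofReal p) m d ≤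
          ENNReal.ofReal (C * Real.sqrt p * (Real.log m) ^ (((d : ℝ) - 1) / 2) / m)) ∧
      ∃ ξ : Fin m → Fin d → ℝ, (∀ μ, ξ μ ∈ Set.Icc (0 : Fin d → ℝ) 1) ∧
        ∀ p : ℝ, 1 ≤ p → p ≤ (Real.log m) ^ (1 / (d : ℝ)) / Real.log (Real.log m) →
          starDisc (ENNReal.ofReal p) (fun _ => 1 / (m : ℝ)) ξ ≤
            ENNReal.ofReal (C * Real.sqrt p * (Real.log m) ^ (((d : ℝ) - 1) / 2) / m)) ∧
    (∀ κ : ℝ, 0 < κ → κ < min (1 / ((d : ℝ) - 1)) (((d : ℝ) - 1) / (2 * (d : ℝ) - 1)) →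
      ∃ C : ℝ, 0 < C ∧ ∀ m : ℕ, 2 ≤ m → ∃ ξ : Fin m → Fin d → ℝ,
        (∀ μ, ξ μ ∈ Set.Icc (0 : Fin d → ℝ) 1) ∧
        ∀ p : ℝ, 1 ≤ p → p ≤ (Real.log m) ^ κ →
          starDisc (ENNReal.ofReal p) (fun _ => 1 / (m : ℝ)) ξ ≤
            ENNReal.ofReal (C * Real.sqrt p * (Real.log m) ^ (((d : ℝ) - 1) / 2) / m)) := by
  obtain ⟨k, rfl⟩ : ∃ k, d = k + 1 := ⟨d - 1, by omega⟩
  have hk2 : 2 ≤ k := by omega
  have hkr : (2 : ℝ) ≤ k := by exact_mod_cast hk2
  have hkd : (((k + 1 : ℕ) : ℝ) - 1) / 2 = (k : ℝ) / 2 := by push_cast; ring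
  have hdr : ((k + 1 : ℕ) : ℝ) = (k : ℝ) + 1 := by push_cast; ring
  constructor
  · obtain ⟨C, hC, hU⟩ := up k (by omega) (1 / ((k : ℝ) + 1)) (by positivity)
      (by rw [one_div, inv_mul_eq_div, div_lt_one (by positivity)]; linarith)
      (by rw [one_div, inv_mul_eq_div, div_lt_iff₀ (by positivity)]; nlinarith)
    obtain ⟨c, hc, hLow⟩ := LargeExponents.result (k + 1) hd
    refine ⟨c, C + 16, hc, by positivity, fun m hm => ?_⟩
    have hm3 : (3 : ℝ) ≤ m := by exact_mod_cast hm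
    have hm0 : (0 : ℝ) < m := by linarith
    have hL1 : 1 < Real.log m := by
      rw [Real.lt_log_iff_exp_lt hm0]
      exact lt_of_lt_of_le Real.exp_one_lt_three hm3
    have hL0 : 0 < Real.log m := by linarith
    have hLL : 0 < Real.log (Real.log m) := Real.log_pos hL1
    have hLk : 1 ≤ (Real.log m) ^ ((k : ℝ) / 2) := Real.one_le_rpow hL1.le (by positivity)
    -- one set for all the exponents
    have hset : ∃ ξ : Fin m → Fin (k + 1) → ℝ, (∀ μ, ξ μ ∈ Set.Icc (0 : Fin (k + 1) → ℝ) 1) ∧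
        ∀ p : ℝ, 1 ≤ p → p ≤ (Real.log m) ^ (1 / ((k + 1 : ℕ) : ℝ)) / Real.log (Real.log m) →
          starDisc (ENNReal.ofReal p) (fun _ => 1 / (m : ℝ)) ξ ≤
            ENNReal.ofReal ((C + 16) * Real.sqrt p *
              (Real.log m) ^ ((((k + 1 : ℕ) : ℝ) - 1) / 2) / m) := by
      by_cases hm16 : 16 ≤ m
      · obtain ⟨ξ, hξ, hξp⟩ := hU m (by omega)
        refine ⟨ξ, hξ, fun p hp1 hp2 => ?_⟩
        have hm16r : (16 : ℝ) ≤ m := by exact_mod_cast hm16
        have hLL1 : 1 ≤ Real.log (Real.log m) := by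
          rw [Real.le_log_iff_exp_le hL0, Real.le_log_iff_exp_le hm0]
          have h1 := Real.exp_one_lt_d9
          have h2 : Real.exp (Real.exp 1) ≤ Real.exp (2.7182818286) :=
            Real.exp_le_exp.2 h1.le
          have h3 : Real.exp (2.7182818286) = Real.exp 1 ^ 2 * Real.exp (0.7182818286) := by
            rw [← Real.exp_nat_mul, ← Real.exp_add]; congr 1; norm_num
          have h4 : Real.exp (0.7182818286) ≤ 2.1 := by
            have h5 := Real.exp_bound' (x := 0.7182818286) (n := 5) (by norm_num) (by norm_num)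
              (by norm_num)
            refine h5.trans ?_
            norm_num [Finset.sum_range_succ, Nat.factorial]
          have h6 : Real.exp 1 ^ 2 ≤ 2.7182818286 ^ 2 :=
            pow_le_pow_left₀ (Real.exp_pos 1).le h1.le 2
          have h7 : 0 < Real.exp 1 ^ 2 := by positivity
          calc Real.exp (Real.exp 1) ≤ Real.exp 1 ^ 2 * Real.exp (0.7182818286) := by
                rw [← h3]; exact h2
            _ ≤ 2.7182818286 ^ 2 * 2.1 := by gcongr
            _ ≤ 16 := by norm_num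
            _ ≤ m := hm16r
        have hp3 : p ≤ (Real.log m) ^ (1 / ((k : ℝ) + 1)) := by
          rw [hdr] at hp2
          refine hp2.trans (div_le_self (Real.rpow_nonneg hL0.le _) hLL1)
        refine (hξp p hp1 hp3).trans (ENNReal.ofReal_le_ofReal ?_)
        rw [hkd]
        apply div_le_div_of_nonneg_right _ hm0.le
        gcongr
        linarith
      · -- `m < 16`
        refine ⟨fun _ _ => 0, fun μ => ⟨le_refl _, fun i => zero_le_one⟩, fun p hp1 hp2 => ?_⟩
        unfold starDisc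
        rw [localDisc_eq]
        refine (N261.LP.ld_zero_le k m (by omega) _).trans ?_
        rw [← ENNReal.ofReal_one]
        apply ENNReal.ofReal_le_ofReal
        rw [le_div_iff₀ hm0, one_mul, hkd]
        have f1 : (m : ℝ) ≤ 16 := by exact_mod_cast (by omega : m ≤ 16)
        have f2 : (1 : ℝ) ≤ Real.sqrt p := by
          rw [← Real.sqrt_one]; exact Real.sqrt_le_sqrt hp1
        calc (m : ℝ) ≤ 16 * 1 * 1 := by linarith
          _ ≤ (C + 16) * Real.sqrt p * (Real.log m) ^ ((k : ℝ) / 2) := by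
              gcongr
              linarith
    obtain ⟨ξ, hξ, hup⟩ := hset
    refine ⟨fun p hp1 hp2 => ?_, ξ, hξ, hup⟩
    obtain ⟨h1, h2⟩ := hLow m hm (ENNReal.ofReal p) (by
      rw [← ENNReal.ofReal_one]; exact ENNReal.ofReal_le_ofReal hp1)
    refine ⟨?_, h2, (iInf₂_le ξ hξ).trans (hup p hp1 hp2)⟩
    refine le_trans ?_ h1
    have hR : Real.sqrt p ≤ (Real.log m) ^ (1 / (2 * ((k + 1 : ℕ) : ℝ))) /
        (Real.log (Real.log m)) ^ (1 / 2 : ℝ) := by
      rw [Real.sqrt_eq_rpow]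
      refine (Real.rpow_le_rpow (by linarith) hp2 (by norm_num)).trans (le_of_eq ?_)
      rw [Real.div_rpow (Real.rpow_nonneg hL0.le _) hLL.le, ← Real.rpow_mul hL0.le]
      congr 2
      rw [div_mul_div_comm, one_mul, mul_comm 2]
    have hmin : ENNReal.ofReal (Real.sqrt p) ≤ min ((ENNReal.ofReal p) ^ (1 / 2 : ℝ))
        (ENNReal.ofReal ((Real.log m) ^ (1 / (2 * ((k + 1 : ℕ) : ℝ))) /
          (Real.log (Real.log m)) ^ (1 / 2 : ℝ))) := by
      refine le_min ?_ (ENNReal.ofReal_le_ofReal hR)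
      rw [ENNReal.ofReal_rpow_of_nonneg (by linarith) (by norm_num), ← Real.sqrt_eq_rpow]
    calc ENNReal.ofReal (c * Real.sqrt p * (Real.log m) ^ ((((k + 1 : ℕ) : ℝ) - 1) / 2) / m)
        = ENNReal.ofReal (c * (Real.log m) ^ ((((k + 1 : ℕ) : ℝ) - 1) / 2) / m) *
          ENNReal.ofReal (Real.sqrt p) := by
          rw [← ENNReal.ofReal_mul (by positivity)]
          congr 1; ring
      _ ≤ _ := by gcongr
  · intro κ hκ0 hκ
    rw [lt_min_iff] at hκ
    obtain ⟨h1, h2⟩ := hκ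
    rw [hdr] at h1 h2
    have h1' : κ * (k : ℝ) < 1 := by
      have e : (k : ℝ) + 1 - 1 = k := by ring
      rw [e, lt_div_iff₀ (by linarith)] at h1
      exact h1
    have h2' : κ * (2 * (k : ℝ) + 1) < k := by
      have e : (k : ℝ) + 1 - 1 = k := by ring
      have e' : 2 * ((k : ℝ) + 1) - 1 = 2 * k + 1 := by ring
      rw [e, e', lt_div_iff₀ (by linarith)] at h2
      exact h2
    obtain ⟨C, hC, hU⟩ := up k (by omega) κ hκ0 h1' h2'
    refine ⟨C, hC, fun m hm => ?_⟩
    obtain ⟨ξ, hξ, hξp⟩ := hU m hm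
    refine ⟨ξ, hξ, fun p hp1 hp2 => ?_⟩
    rw [hkd]
    exact hξp p hp1 hp2

end Pool.Agent.Results.MP_173de9_an.SharpWholeLowerRange
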