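import Pool.Agent.U587.DT.Main

set_option autoImplicit false

/-!
# Random digital shifts of an arbitrary sequence: one thin set of exceptional times

Let `D = d + 1 ≥ 2`, let `x` be ANY sequence in `[0,1)^D`, and shift one coordinate of all its terms by
the binary digits of a real number `u ∈ [0,1)`. For every `0 < ε ≤ 1` there is ONE set `E` of natural
numbers, depending only on the sequence, with at most `K N^ε` elements up to `N` for every `N`, such
that for EVERY `n` outside of `E`, for random `u`,

* the star discrepancy of the first `n` shifted terms is at least `c (log n)^((D+1)/2) / (R n)` with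
  probability at least `1 - (1-q)^R`, for every `R ≥ 1`;
* its mean over the shifts is at least `c' (log n)^((D+1)/2) / n`;
* all its negative moments are of the order which corresponds to that size;
* along every sequence of times `t_k ≥ 2^k` outside of `E`, for almost every shift all but finitely many
  of the discrepancies at the times `t_k` are at least `c' (log t_k)^((D+1)/2) / (t_k log log t_k)`.

For a single point set of `n` points in dimension `D` Roth's exponent is `(D-1)/2` and the exponent for
random shifts is `D/2`; the exponent `(D+1)/2` of the statement is the one which belongs to the worst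
initial segment of a randomly shifted sequence, and it is attained at all times outside of `E`.
-/

namespace Pool.Agent.Results.MP_173de9_an.ShiftsAtSparseTimes

open Finset MeasureTheory Filter

/-- The local discrepancy `∏ x_j - (1/m) Σ_μ χ_{[0,x]}(ξ^μ)` of `m` points `ξ`. -/
noncomputable def localDisc {m D : ℕ} (ξ : Fin m → Fin D → ℝ) (x : Fin D → ℝ) : ℝ :=
  ∏ j, x j - ∑ μ : Fin m, (Set.Icc (0 : Fin D → ℝ) x).indicator (fun _ => 1 / (m : ℝ)) (ξ μ)

/-- The star discrepancy: the `L_∞` norm of the local discrepancy over `[0,1]^D`. -/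
noncomputable def starDisc {m D : ℕ} (ξ : Fin m → Fin D → ℝ) : ENNReal :=
  eLpNorm (localDisc ξ) ⊤ (volume.restrict (Set.Icc (0 : Fin D → ℝ) 1))

/-- The digital sum of `a` and `u`. The `(k+1)`-st binary digit of `a ∈ [0,1)` is
`⌊2^(k+1) a⌋ mod 2`; the digits of `a` and `u` are added modulo 2. -/
noncomputable def xorShift (u a : ℝ) : ℝ :=
  ∑' k : ℕ, (((⌊2 ^ (k + 1) * a⌋₊ + ⌊2 ^ (k + 1) * u⌋₊) % 2 : ℕ) : ℝ) / 2 ^ (k + 1)

/-- The star discrepancy of the first `n` terms of the sequence `x` after the digital shift of their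
`i`-th coordinates by the digits of `u`. -/
noncomputable def shiftedStar {D : ℕ} (i : Fin D) (u : ℝ) (x : ℕ → Fin D → ℝ) (n : ℕ) : ENNReal :=
  starDisc (fun μ : Fin n => Function.update (x μ) i (xorShift u (x μ i)))

/-- **Theorem.** Random digital shifts of one coordinate of an arbitrary sequence in `[0,1)^(d+1)`:
tails, mean, negative moments and sparse times outside of one thin set of times. -/
theorem result (d : ℕ) (hd : 1 ≤ d) (ε : ℝ) (hε : 0 < ε) (hε1 : ε ≤ 1) :
    ∃ c q K : ℝ, ∃ C : ℕ → ℝ, 0 < c ∧ 0 < q ∧ q < 1 ∧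
      ∀ (x : ℕ → Fin (d + 1) → ℝ), (∀ n j, 0 ≤ x n j ∧ x n j < 1) → ∀ i : Fin (d + 1),
        ∃ E : Set ℕ,
          -- the exceptional times are rare
          (∀ N : ℕ, 1 ≤ N → ({n : ℕ | 1 ≤ n ∧ n ≤ N ∧ n ∈ E}.ncard : ℝ) ≤ K * (N : ℝ) ^ ε) ∧
          (∀ n : ℕ, 1 ≤ n → n ∉ E →
            -- exponential lower tails
            (∀ R : ℕ, 1 ≤ R → volume {u : ℝ | (0 ≤ u ∧ u < 1) ∧ shiftedStar i u x n <
                ENNReal.ofReal (c * Real.log n ^ (((d : ℝ) + 2) / 2) / (R * n))} ≤
              ENNReal.ofReal ((1 - q) ^ R)) ∧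
            -- the mean over the shifts
            ENNReal.ofReal (q * c * Real.log n ^ (((d : ℝ) + 2) / 2) / n) ≤
              ∫⁻ u in Set.Ico (0 : ℝ) 1, shiftedStar i u x n ∧
            -- all negative moments
            (∀ s : ℕ, ∫⁻ u in Set.Ico (0 : ℝ) 1, ((shiftedStar i u x n)⁻¹) ^ s ≤
              ENNReal.ofReal (C s * (n / Real.log n ^ (((d : ℝ) + 2) / 2)) ^ s))) ∧
          -- sparse times, almost every shift
          (∀ t : ℕ → ℕ, (∀ k, 2 ^ k ≤ t k) → (∀ k, t k ∉ E) →
            ∀ᵐ u ∂(volume.restrict (Set.Ico (0 : ℝ) 1)), ∀ᶠ k in atTop,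
              ENNReal.ofReal (q * c / 4 * Real.log (t k) ^ (((d : ℝ) + 2) / 2) /
                (Real.log (Real.log (t k)) * t k)) ≤ shiftedStar i u x (t k)) := by
  obtain ⟨c, q, K, hc, hq, hq1, hK, H⟩ := Pool.Agent.U587.DT.tails d hd ε hε hε1
  refine ⟨c, q, K, fun s => Pool.Agent.U587.DT.momC q s * (1 / c) ^ s, hc, hq, hq1, ?_⟩
  intro x hx i
  obtain ⟨E, hE1, hE2⟩ := H x (fun n j => (hx n j).1) i (fun n => (hx n i).2)
  refine ⟨E, hE1, ?_, ?_⟩
  · intro n hn hnE
    obtain ⟨hn2, hT⟩ := hE2 n hn hnE
    have hn0 : (0 : ℝ) < n := by exact_mod_cast (by omega : 0 < n)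
    have hlog : 0 < Real.log n := Real.log_pos (by exact_mod_cast (by omega : 1 < n))
    have ha : 0 < c * Real.log n ^ (((d : ℝ) + 2) / 2) / n := by positivity
    refine ⟨?_, ?_, ?_⟩
    · intro R hR
      have := hT R hR
      rw [div_div, mul_comm (n : ℝ) (R : ℝ)] at this
      exact this
    · have := Pool.Agent.U587.DT.mean_lower ha hq hq1 hT
      rw [← mul_div_assoc, ← mul_assoc] at this
      exact this
    · intro s
      refine (Pool.Agent.U587.DT.neg_moment ha hq hq1 hT s).trans (le_of_eq ?_)
      congr 1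
      rw [mul_assoc, ← mul_pow]
      congr 2
      field_simp
  · intro t ht htE
    refine Pool.Agent.U587.DT.lacunary hq hq1 hc
      (fun k u => shiftedStar i u x (t k)) t ht (fun k => ?_)
    have h1 : 1 ≤ t k := (Nat.one_le_two_pow).trans (ht k)
    exact (hE2 (t k) h1 (htE k)).2

end Pool.Agent.Results.MP_173de9_an.ShiftsAtSparseTimes
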