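import Pool.Agent.U49.SD.Final

set_option autoImplicit false

namespace Pool.Agent.Results.MP_173de9_an.StarDiscSixth

open MeasureTheory

/-- The local discrepancy `∏ x_j - (1/m) Σ_μ χ_{[0,x]}(ξ^μ)` of `m` points `ξ` at `x`. -/
noncomputable def localDisc {m d : ℕ} (ξ : Fin m → Fin d → ℝ) (x : Fin d → ℝ) : ℝ :=
  ∏ j, x j - (1 / (m:ℝ)) * ∑ μ : Fin m, (Set.Icc (0 : Fin d → ℝ) x).indicator (fun _ => (1:ℝ)) (ξ μ)

/-- `D(ξ,m,d)_q`: the `L_q` norm of the local discrepancy over `[0,1]^d`. -/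
noncomputable def starDisc (q : ENNReal) {m d : ℕ} (ξ : Fin m → Fin d → ℝ) : ENNReal :=
  eLpNorm (localDisc ξ) q (volume.restrict (Set.Icc (0 : Fin d → ℝ) 1))

/-- `D(m,d)_q`: the infimum over all `m`-point sets (repetitions allowed) in `[0,1]^d`. -/
noncomputable def optDisc (q : ENNReal) (m d : ℕ) : ENNReal :=
  ⨅ (ξ : Fin m → Fin d → ℝ) (_ : ∀ μ, ξ μ ∈ Set.Icc (0 : Fin d → ℝ) 1), starDisc q ξ

/-- For every `d ≥ 3` there is `C` with
`D(m,d)_∞ ≤ C (ln m)^(d-1-τ) (ln ln m)^2 / m` for all `m ≥ 3`, where `τ = 1/6` if `d ≥ 4`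
and `τ = 1/7` if `d = 3`. -/
theorem result : ∀ d : ℕ, 3 ≤ d → ∃ C : ℝ, 0 < C ∧ ∀ m : ℕ, 3 ≤ m →
    optDisc ⊤ m d ≤ ENNReal.ofReal (C * (Real.log m) ^ ((d:ℝ) - 1 - (if d = 3 then 1 / 7 else 1 / 6)) *
      (Real.log (Real.log m)) ^ 2 / m) := by
  classical
  intro d hd
  obtain ⟨n, rfl⟩ : ∃ n, d = n + 2 := ⟨d - 2, by omega⟩
  obtain ⟨C, hC, hfin⟩ := U49.star_closed n (by omega)
  refine ⟨C, hC, ?_⟩
  intro m hm
  obtain ⟨ξ, hξ, hb⟩ := hfin m hm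
  have hm0 : (0:ℝ) < m := by exact_mod_cast (by omega : 0 < m)
  have hmem : ∀ μ, ξ μ ∈ Set.Icc (0 : Fin (n+2) → ℝ) 1 := fun μ =>
    ⟨fun j => (hξ μ j).1, fun j => (hξ μ j).2.le⟩
  refine (iInf₂_le ξ hmem).trans ?_
  unfold starDisc
  rw [eLpNorm_exponent_top]
  apply eLpNormEssSup_le_of_ae_bound
  filter_upwards [ae_restrict_mem measurableSet_Icc] with x hx
  have h1 := hb x (fun j => hx.1 j) (fun j => hx.2 j)
    (Finset.univ.filter (fun μ => ∀ j, ξ μ j ≤ x j)) (fun μ => by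
      rw [Finset.mem_filter]
      exact ⟨fun h => h.2, fun h => ⟨Finset.mem_univ _, h⟩⟩)
  have h2 : ∑ μ : Fin m, (Set.Icc (0 : Fin (n+2) → ℝ) x).indicator (fun _ => (1:ℝ)) (ξ μ) =
      ((Finset.univ.filter (fun μ => ∀ j, ξ μ j ≤ x j)).card : ℝ) := by
    rw [Finset.card_filter]
    push_cast
    apply Finset.sum_congr rfl
    intro μ _
    rw [Set.indicator_apply]
    by_cases h : ∀ j, ξ μ j ≤ x j
    · rw [if_pos h, if_pos ⟨(hmem μ).1, h⟩]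
    · rw [if_neg h, if_neg fun h' => h h'.2]
  have h3 : localDisc ξ x = -((((Finset.univ.filter (fun μ => ∀ j, ξ μ j ≤ x j)).card : ℝ) -
      m * ∏ j, x j) / m) := by
    unfold localDisc
    rw [h2]
    field_simp
    ring
  rw [h3, norm_neg, Real.norm_eq_abs, abs_div, abs_of_pos hm0]
  refine (div_le_div_of_nonneg_right h1 hm0.le).trans (le_of_eq ?_)
  have h4 : ((n:ℝ) + 1 - U49.sav n) =
      (((n + 2 : ℕ) : ℝ) - 1 - (if n + 2 = 3 then 1 / 7 else 1 / 6)) := by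
    unfold U49.sav
    by_cases h : n = 1
    · subst h
      norm_num
    · rw [if_neg h, if_neg (by omega)]
      push_cast
      ring
  rw [h4]

end Pool.Agent.Results.MP_173de9_an.StarDiscSixth
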